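import Pool.Agent.Lib.MP_ded8ec_lc.ALG.Main
import Pool.Agent.Lib.MP_ded8ec_lc.FI.Main

/-!
# Internally 4-connected Seymour graphs: characterization and polynomial-time recognition
-/

set_option autoImplicit false

namespace Pool.Agent.Results.MP_ded8ec_lc.InternallyFourConnected

/-- The cut `δ(X)`: the edges with exactly one end in `X`. -/
def cut {V : Type} (G : SimpleGraph V) (X : Set V) : Set (Sym2 V) :=
  {e | ∃ x y, x ∈ X ∧ y ∉ X ∧ G.Adj x y ∧ e = s(x, y)}

/-- `F` is admissible: a set of edges with `|C ∩ F| ≤ |C ∖ F|` for every circuit `C`. -/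
def Admissible {V : Type} (G : SimpleGraph V) (F : Set (Sym2 V)) : Prop :=
  F ⊆ G.edgeSet ∧ ∀ (v : V) (C : G.Walk v v), C.IsCycle →
    {e | e ∈ C.edges ∧ e ∈ F}.ncard ≤ {e | e ∈ C.edges ∧ e ∉ F}.ncard

/-- `G` is a Seymour graph: for every admissible `F` there are `|F|` pairwise disjoint cuts (a family
indexed by the elements of `F`), each of which contains exactly one edge of `F`. -/
def IsSeymour {V : Type} (G : SimpleGraph V) : Prop :=
  ∀ F : Set (Sym2 V), Admissible G F → ∃ X : F → Set V,
    (∀ f g, f ≠ g → Disjoint (cut G (X f)) (cut G (X g))) ∧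
    ∀ f, ∃! e, e ∈ cut G (X f) ∧ e ∈ F

/-- `G` is 3-connected: at least 4 vertices, connected after the removal of at most 2 vertices. -/
def Conn3 {V : Type} [Fintype V] (G : SimpleGraph V) : Prop :=
  4 ≤ Fintype.card V ∧ ∀ N : Finset V, N.card ≤ 2 → (G.induce ((N : Set V)ᶜ)).Connected

/-- `G` is internally 4-connected: 3-connected, and if the removal of 3 vertices (`N`) separates `A` from `B`
(`V` is the disjoint union of `N`, `A`, `B`, no edges between `A` and `B`) then `A` or `B` has at most one
element. -/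
def IConn4 {V : Type} [Fintype V] (G : SimpleGraph V) : Prop :=
  Conn3 G ∧ ∀ N A B : Finset V, N.card = 3 → Disjoint A N → Disjoint B N → Disjoint A B →
    (∀ x, x ∈ A ∨ x ∈ B ∨ x ∈ N) → (∀ x ∈ A, ∀ y ∈ B, ¬ G.Adj x y) → A.card ≤ 1 ∨ B.card ≤ 1

/-- `G - v` is bipartite for some vertex `v`. -/
def Apex {V : Type} (G : SimpleGraph V) : Prop :=
  ∃ (v : V) (c : V → Bool), ∀ x y, x ≠ v → y ≠ v → G.Adj x y → c x ≠ c y

open Classical in
/-- The adjacency matrix of the graph `G` on `Fin n`, row by row: a word of `n ^ 2` bits. -/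
noncomputable def code {n : ℕ} (G : SimpleGraph (Fin n)) : List Bool :=
  (List.finRange n).flatMap fun i => (List.finRange n).map fun j => decide (G.Adj i j)

/-- (1) An internally 4-connected graph `G` is a Seymour graph if and only if `G - v` is bipartite for some
vertex `v`.  (2) A Turing machine decides in polynomial time, given the adjacency matrix of a graph `G`, whether
`G` is internally 4-connected and a Seymour graph. -/
theorem result :
    (∀ (V : Type) [Fintype V] (G : SimpleGraph V), IConn4 G → (IsSeymour G ↔ Apex G)) ∧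
    ∃ f : List Bool → Bool,
      Nonempty (Turing.TM2ComputableInPolyTime (fun w : List Bool => w) Computability.encodeBool f) ∧
      ∀ (n : ℕ) (G : SimpleGraph (Fin n)), f (code G) = true ↔ IConn4 G ∧ IsSeymour G :=
  ⟨fun V _ G h => Pool.Agent.Lib.MPded8ec.FI.main V G h,
    Pool.Agent.Lib.MPded8ec.ALG.machineI Pool.Agent.Lib.MPded8ec.FI.main⟩

end Pool.Agent.Results.MP_ded8ec_lc.InternallyFourConnected
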